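import Mathlib
import Pool.Agent.X1.ContLog
import Pool.Agent.X1.ContLogIds
import Pool.Agent.X1.RegQuasi

/-!
# The continued logarithm length sequence is not `k`-regular for any `k ≥ 2`
-/

namespace Pool.Agent.Results.MP_32f763_nt.NeverRegular

open Filter Pool.Agent.X1.ContLog Pool.Agent.X1.ContLogIds Pool.Agent.X1.RegQuasi

/-- The sequence `(L(n))_{n ≥ 1}` of lengths of the continued logarithm expansions `cl(n, 1)`, with
the value `0` at `n = 0`. -/
def Lseq (n : ℕ) : ℤ := if n = 0 then 0 else ((clist n 1).length : ℤ)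

/-- The `k`-kernel of an integer sequence. -/
def kernel (k : ℕ) (a : ℕ → ℤ) : Set (ℕ → ℤ) :=
  {b | ∃ e r : ℕ, r < k ^ e ∧ b = fun n => a (k ^ e * n + r)}

/-- `a` is `k`-regular: the `ℤ`-module generated by its `k`-kernel is finitely generated. -/
def IsRegular (k : ℕ) (a : ℕ → ℤ) : Prop := (Submodule.span ℤ (kernel k a)).FG

lemma Lseq_eq {n : ℕ} (hn : 1 ≤ n) : Lseq n = L n := by
  unfold Lseq L
  rw [if_neg (by omega)]

/-- The eventual value of `L(2^j + r)`. -/
def GG (r : ℕ) : ℤ := if r = 0 then 1 else (L (2 ^ r + r) : ℤ)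

lemma GG_pos (r : ℕ) : 1 ≤ GG r := by
  unfold GG
  split_ifs
  · exact le_rfl
  · have := L_pos (2 ^ r + r)
    omega

lemma Lseq_pow_add {j r : ℕ} (h : r ≤ j) : Lseq (2 ^ j + r) = GG r := by
  have h1 : 1 ≤ 2 ^ j := Nat.one_le_two_pow
  rw [Lseq_eq (by omega)]
  unfold GG
  split_ifs with h0
  · subst h0
    rw [add_zero, L_pow]; rfl
  · rw [L_pow_add (by omega) j h]

/-! ### `k` with an odd prime factor -/

lemma indep {k e d : ℕ} (c : Fin (d + 1) → ℕ) (hc : StrictMono c)
    (hrec : ∀ i B, ∃ j, B ≤ j ∧ ∃ n, 2 ^ j = k ^ e * n + c i) (μ : Fin (d + 1) → ℤ)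
    (hμ : ∀ n, ∑ i, μ i * Lseq (k ^ e * n + c i) = 0) : ∀ i, μ i = 0 := by
  have hclast : ∀ l, c l ≤ c (Fin.last d) := fun l => hc.monotone (Fin.le_last l)
  have claim : ∀ i : ℕ, ∀ hi : i < d, μ ⟨i, by omega⟩ = 0 := by
    intro i
    induction i using Nat.strong_induction_on with
    | _ i ih =>
      intro hi
      by_contra hne
      set i0 : Fin (d + 1) := ⟨i, by omega⟩ with hi0
      set i1 : Fin (d + 1) := ⟨i + 1, by omega⟩ with hi1
      have hlt : c i0 < c i1 := hc (by rw [hi0, hi1, Fin.lt_def]; simp)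
      set M : ℤ := ∑ l, |μ l| * GG (c l - c i1) with hM
      obtain ⟨j, hj, n, hn⟩ := hrec i1
        (c (Fin.last d) + 2 ^ M.toNat + pc (c i1 - c i0 - 1) + 1)
      have hrel := hμ n
      have hjlt : j < 2 ^ j := Nat.lt_two_pow_self
      have hci1 := hclast i1
      have hMpos : 0 < 2 ^ M.toNat := by positivity
      have harg : ∀ l, k ^ e * n + c l = 2 ^ j - c i1 + c l := by intro l; omega
      have hother : ∀ l, l ≠ i0 → |μ l * Lseq (k ^ e * n + c l)| ≤ |μ l| * GG (c l - c i1) := by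
        intro l hl
        rw [abs_mul]
        rcases lt_or_ge (l : ℕ) i with hli | hli
        · have := ih l hli (by omega)
          have h0 : μ l = 0 := this
          rw [h0]; simp
        · have hl1 : i1 ≤ l := by
            rw [hi1, Fin.le_def]
            have : (l : ℕ) ≠ i := fun h => hl (Fin.ext h)
            simp only
            omega
          have hcl : c i1 ≤ c l := hc.monotone hl1
          have hcl' := hclast l
          have e1 : k ^ e * n + c l = 2 ^ j + (c l - c i1) := by rw [harg]; omega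
          rw [e1, Lseq_pow_add (by omega), abs_of_pos (lt_of_lt_of_le one_pos (GG_pos _))]
      have hmain : |μ i0 * Lseq (k ^ e * n + c i0)| ≤ M := by
        have h1 : μ i0 * Lseq (k ^ e * n + c i0)
            = - ∑ l ∈ Finset.univ.erase i0, μ l * Lseq (k ^ e * n + c l) := by
          have := Finset.add_sum_erase Finset.univ (fun l => μ l * Lseq (k ^ e * n + c l))
            (Finset.mem_univ i0)
          linarith
        rw [h1, abs_neg]
        calc |∑ l ∈ Finset.univ.erase i0, μ l * Lseq (k ^ e * n + c l)|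
            ≤ ∑ l ∈ Finset.univ.erase i0, |μ l * Lseq (k ^ e * n + c l)| :=
              Finset.abs_sum_le_sum_abs _ _
          _ ≤ ∑ l ∈ Finset.univ.erase i0, |μ l| * GG (c l - c i1) :=
              Finset.sum_le_sum fun l hl => hother l (Finset.ne_of_mem_erase hl)
          _ ≤ M := by
              rw [hM]
              apply Finset.sum_le_sum_of_subset_of_nonneg (Finset.erase_subset _ _)
              intro l _ _
              exact mul_nonneg (abs_nonneg _) (by have := GG_pos (c l - c i1); omega)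
      have e0 : k ^ e * n + c i0 = 2 ^ j - (c i1 - c i0) := by rw [harg]; omega
      rw [e0, Lseq_eq (by omega), abs_mul] at hmain
      have hL := L_lower (g := j) (c := c i1 - c i0) (by omega) (by omega)
      have hone : 1 ≤ |μ i0| := Int.one_le_abs hne
      have hLM : (L (2 ^ j - (c i1 - c i0)) : ℤ) ≤ M := by
        have h2 : |(L (2 ^ j - (c i1 - c i0)) : ℤ)| = L (2 ^ j - (c i1 - c i0)) := by
          apply abs_of_nonneg; positivity
        rw [h2] at hmain
        have h3 : (0 : ℤ) ≤ L (2 ^ j - (c i1 - c i0)) := by positivity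
        nlinarith
      have hLM' : L (2 ^ j - (c i1 - c i0)) ≤ M.toNat := by omega
      have hpow : 2 ^ L (2 ^ j - (c i1 - c i0)) ≤ 2 ^ M.toNat :=
        Nat.pow_le_pow_right (by norm_num) hLM'
      omega
  -- the last coefficient
  have hlast : μ (Fin.last d) = 0 := by
    obtain ⟨j, hj, n, hn⟩ := hrec 0 (c (Fin.last d) + 1)
    have hrel := hμ n
    rw [Finset.sum_eq_single (Fin.last d)] at hrel
    · have h0 : c 0 ≤ c (Fin.last d) := hclast 0
      have e1 : k ^ e * n + c (Fin.last d) = 2 ^ j + (c (Fin.last d) - c 0) := by omega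
      rw [e1, Lseq_pow_add (by omega)] at hrel
      have := GG_pos (c (Fin.last d) - c 0)
      rcases mul_eq_zero.1 hrel with h | h
      · exact h
      · omega
    · intro l _ hl
      have hld : (l : ℕ) < d := by
        have h1 := l.isLt
        have h2 : (l : ℕ) ≠ d := fun h => hl (Fin.ext h)
        omega
      have : μ l = 0 := claim l hld
      rw [this, zero_mul]
    · intro h; exact absurd (Finset.mem_univ _) h
  intro i
  rcases lt_or_ge (i : ℕ) d with h | h
  · exact claim i h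
  · have : i = Fin.last d := Fin.ext (by have := i.isLt; simp only [Fin.val_last]; omega)
    rw [this, hlast]

lemma residues {k p : ℕ} (hk : 2 ≤ k) (hp : p.Prime) (hp2 : p ≠ 2) (hpk : p ∣ k) (d : ℕ) :
    ∃ (e : ℕ) (c : Fin (d + 1) → ℕ), StrictMono c ∧ (∀ i, c i < k ^ e) ∧
      ∀ i B, ∃ j, B ≤ j ∧ ∃ n, 2 ^ j = k ^ e * n + c i := by
  have hp3 : 3 ≤ p := by have := hp.two_le; omega
  have hkpos : 0 < k ^ (d + 1) := by positivity
  -- periodicity of `2^j mod k^(d+1)`
  obtain ⟨x, y, hne, hxy⟩ := Finite.exists_ne_map_eq_of_infinite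
    (fun i : ℕ => (⟨2 ^ i % k ^ (d + 1), Nat.mod_lt _ hkpos⟩ : Fin (k ^ (d + 1))))
  wlog hlt : x < y generalizing x y
  · exact this y x hne.symm hxy.symm (lt_of_le_of_ne (not_lt.1 hlt) hne.symm)
  have hper : 2 ^ y ≡ 2 ^ x [MOD k ^ (d + 1)] := by
    have := congrArg Fin.val hxy
    exact this.symm
  have hper2 : ∀ i t : ℕ, 2 ^ (x + i + t * (y - x)) ≡ 2 ^ (x + i) [MOD k ^ (d + 1)] := by
    intro i t
    induction t with
    | zero => simp [Nat.ModEq.refl]
    | succ t ih =>
      have e1 : 2 ^ (x + i + (t + 1) * (y - x)) = 2 ^ y * 2 ^ (i + t * (y - x)) := by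
        rw [← pow_add]; congr 1
        rw [add_mul, one_mul]; omega
      have e2 : 2 ^ (x + i + t * (y - x)) = 2 ^ x * 2 ^ (i + t * (y - x)) := by
        rw [← pow_add]; congr 1; ring
      rw [e1]
      rw [e2] at ih
      exact (Nat.ModEq.mul_right _ hper).trans ih
  -- distinctness
  set ρ : ℕ → ℕ := fun i => 2 ^ (x + i) % k ^ (d + 1) with hρ
  have hinj : Set.InjOn ρ (Finset.range (d + 1) : Set ℕ) := by
    have hkey : ∀ i i' : ℕ, i < i' → i' ≤ d → ρ i ≠ ρ i' := by
      intro i i' hii hid heq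
      have h1 : 2 ^ (x + i) ≡ 2 ^ (x + i') [MOD k ^ (d + 1)] := heq
      have h2 : 2 ^ (x + i) ≡ 2 ^ (x + i') [MOD p ^ (d + 1)] :=
        h1.of_dvd (pow_dvd_pow_of_dvd hpk _)
      have h3 : p ^ (d + 1) ∣ 2 ^ (x + i') - 2 ^ (x + i) :=
        (Nat.modEq_iff_dvd' (Nat.pow_le_pow_right (by norm_num) (by omega))).1 h2
      have h4 : 2 ^ (x + i') - 2 ^ (x + i) = 2 ^ (x + i) * (2 ^ (i' - i) - 1) := by
        rw [Nat.mul_sub, mul_one, ← pow_add]
        congr 2
        omega
      rw [h4] at h3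
      have hcop : Nat.Coprime (p ^ (d + 1)) (2 ^ (x + i)) := by
        apply Nat.Coprime.pow
        exact (Nat.coprime_primes hp Nat.prime_two).2 hp2
      have h5 : p ^ (d + 1) ∣ 2 ^ (i' - i) - 1 := hcop.dvd_of_dvd_mul_left h3
      have h6 : 2 ≤ 2 ^ (i' - i) := by
        calc 2 = 2 ^ 1 := by norm_num
          _ ≤ 2 ^ (i' - i) := Nat.pow_le_pow_right (by norm_num) (by omega)
      have h7 := Nat.le_of_dvd (by omega) h5
      have h8 : 2 ^ (i' - i) ≤ 2 ^ (d + 1) := Nat.pow_le_pow_right (by norm_num) (by omega)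
      have h9 : 2 ^ (d + 1) ≤ p ^ (d + 1) := Nat.pow_le_pow_left (by omega) _
      omega
    intro i hi i' hi' heq
    simp only [Finset.coe_range, Set.mem_Iio] at hi hi'
    rcases lt_trichotomy i i' with h | h | h
    · exact absurd heq (hkey i i' h (by omega))
    · exact h
    · exact absurd heq.symm (hkey i' i h (by omega))
  set R := (Finset.range (d + 1)).image ρ with hR
  have hcard : R.card = d + 1 := by
    rw [hR, Finset.card_image_of_injOn hinj, Finset.card_range]
  refine ⟨d + 1, fun i => R.orderEmbOfFin hcard i, (R.orderEmbOfFin hcard).strictMono, ?_, ?_⟩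
  · intro i
    obtain ⟨i', _, hi'⟩ := Finset.mem_image.1 (R.orderEmbOfFin_mem hcard i)
    simp only
    rw [← hi']
    exact Nat.mod_lt _ hkpos
  · intro i B
    obtain ⟨i', _, hi'⟩ := Finset.mem_image.1 (R.orderEmbOfFin_mem hcard i)
    refine ⟨x + i' + B * (y - x), ?_, 2 ^ (x + i' + B * (y - x)) / k ^ (d + 1), ?_⟩
    · have : B * 1 ≤ B * (y - x) := Nat.mul_le_mul_left _ (by omega)
      omega
    · have h1 : 2 ^ (x + i' + B * (y - x)) % k ^ (d + 1) = 2 ^ (x + i') % k ^ (d + 1) :=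
        hper2 i' B
      have h2 := Nat.div_add_mod (2 ^ (x + i' + B * (y - x))) (k ^ (d + 1))
      simp only
      rw [← hi', hρ]
      simp only
      rw [← h1]
      exact h2.symm

theorem not_regular_odd {k p : ℕ} (hk : 2 ≤ k) (hp : p.Prime) (hp2 : p ≠ 2) (hpk : p ∣ k) :
    ¬ IsRegular k Lseq := by
  intro hreg
  unfold IsRegular at hreg
  set K := Submodule.span ℤ (kernel k Lseq) with hK
  have : Module.Finite ℤ K := Module.Finite.iff_fg.2 hreg
  obtain ⟨e, c, hc, hck, hrec⟩ := residues hk hp hp2 hpk (Module.finrank ℤ K)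
  have hmem : ∀ i, (fun n => Lseq (k ^ e * n + c i)) ∈ K := fun i =>
    Submodule.subset_span ⟨e, c i, hck i, rfl⟩
  let v : Fin (Module.finrank ℤ K + 1) → K := fun i => ⟨fun n => Lseq (k ^ e * n + c i), hmem i⟩
  have hli : LinearIndependent ℤ v := by
    rw [Fintype.linearIndependent_iff]
    intro μ hμ
    apply indep c hc hrec μ
    intro n
    have h1 := congrArg (fun z : K => (z : ℕ → ℤ) n) hμ
    simpa [v, Finset.sum_apply] using h1
  have := hli.fintype_card_le_finrank
  rw [Fintype.card_fin] at this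
  omega

/-! ### Powers of `2` -/

lemma dec_stable {k : ℕ} (hk : 1 ≤ k) : ∀ b ∈ Submodule.span ℤ (kernel k Lseq),
    dec k b ∈ Submodule.span ℤ (kernel k Lseq) := by
  intro b hb
  induction hb using Submodule.span_induction with
  | mem x hx =>
    obtain ⟨e, r, hr, rfl⟩ := hx
    apply Submodule.subset_span
    refine ⟨e + 1, k ^ e * (k - 1) + r, ?_, ?_⟩
    · obtain ⟨k', rfl⟩ : ∃ k', k = k' + 1 := ⟨k - 1, by omega⟩
      rw [pow_succ, show k' + 1 - 1 = k' by omega]
      nlinarith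
    · funext n
      change Lseq (k ^ e * (k * (n + 1) - 1) + r) = Lseq (k ^ (e + 1) * n + (k ^ e * (k - 1) + r))
      congr 1
      obtain ⟨k', rfl⟩ : ∃ k', k = k' + 1 := ⟨k - 1, by omega⟩
      rw [show (k' + 1) * (n + 1) - 1 = (k' + 1) * n + k' by
        rw [mul_add, mul_one]; omega, show k' + 1 - 1 = k' by omega, pow_succ]
      ring
  | zero => exact Submodule.zero_mem _
  | add x y _ _ hx hy => exact Submodule.add_mem _ hx hy
  | smul a x _ hx => exact Submodule.smul_mem _ a hx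

lemma growth {a : ℕ} : ∀ b ∈ Submodule.span ℤ (kernel (2 ^ a) Lseq), ∀ n : ℕ,
    ∃ C : ℤ, ∀ ι : ℕ, |b ((2 ^ a) ^ ι * (n + 1) - 1)| ≤ C * (ι + 1) := by
  intro b hb n
  induction hb using Submodule.span_induction with
  | mem x hx =>
    obtain ⟨e, r, hr, rfl⟩ := hx
    refine ⟨4 * (a * (e + 1)) + 4 * (n + 1) + 9, fun ι => ?_⟩
    simp only
    set X := (2 ^ a) ^ e * ((2 ^ a) ^ ι * (n + 1) - 1) + r with hX
    have hlt : X < 2 ^ (a * (e + ι) + (n + 1)) := by
      have h1 : 1 ≤ (2 ^ a) ^ ι * (n + 1) := by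
        have : 0 < (2 ^ a) ^ ι := by positivity
        exact Nat.mul_pos this (by omega)
      have h2 : X < (2 ^ a) ^ e * ((2 ^ a) ^ ι * (n + 1)) := by
        obtain ⟨Y, hY⟩ : ∃ Y, (2 ^ a) ^ ι * (n + 1) = Y + 1 :=
          ⟨(2 ^ a) ^ ι * (n + 1) - 1, by omega⟩
        rw [hX, hY, show Y + 1 - 1 = Y by omega, mul_add, mul_one]
        omega
      refine lt_of_lt_of_le h2 ?_
      rw [← mul_assoc, ← pow_add, ← pow_mul, pow_add 2 (a * (e + ι)) (n + 1)]
      exact Nat.mul_le_mul_left _ (Nat.lt_two_pow_self).le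
    have hb2 : |Lseq X| ≤ 4 * (a * (e + ι) + (n + 1)) + 9 := by
      unfold Lseq
      split_ifs with h0
      · rw [abs_zero]; positivity
      · have h3 := L_upper (by omega) hlt
        unfold L at h3
        rw [abs_of_nonneg (by positivity)]
        exact_mod_cast h3
    refine hb2.trans ?_
    have h1 : (0 : ℤ) ≤ a := by positivity
    have h2 : (0 : ℤ) ≤ e := by positivity
    have h3 : (0 : ℤ) ≤ ι := by positivity
    have h4 : (0 : ℤ) ≤ n := by positivity
    nlinarith [mul_nonneg h1 (mul_nonneg h2 h3), mul_nonneg h4 h3]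
  | zero => exact ⟨0, fun ι => by simp⟩
  | add x y _ _ hx hy =>
    obtain ⟨C, hC⟩ := hx
    obtain ⟨C', hC'⟩ := hy
    refine ⟨C + C', fun ι => ?_⟩
    have h1 := hC ι
    have h2 := hC' ι
    simp only [Pi.add_apply]
    refine (abs_add_le _ _).trans ?_
    rw [add_mul]
    linarith
  | smul m x _ hx =>
    obtain ⟨C, hC⟩ := hx
    refine ⟨|m| * C, fun ι => ?_⟩
    simp only [Pi.smul_apply, smul_eq_mul, abs_mul]
    rw [mul_assoc]
    exact mul_le_mul_of_nonneg_left (hC ι) (abs_nonneg _)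

theorem not_regular_pow {a : ℕ} (ha : 1 ≤ a) : ¬ IsRegular (2 ^ a) Lseq := by
  intro hreg
  unfold IsRegular at hreg
  have hk1 : 1 ≤ 2 ^ a := Nat.one_le_two_pow
  obtain ⟨m, P, hP, hQ⟩ := module_quasi hk1 hreg (dec_stable hk1) growth
  set K := Submodule.span ℤ (kernel (2 ^ a) Lseq) with hK
  have hself : Lseq ∈ K := by
    apply Submodule.subset_span
    refine ⟨0, 0, by simp, ?_⟩
    funext n; simp
  -- Step 1: the family `A_g 2^{g+j} - 1`
  have hJ : 1 ≤ a * P := Nat.mul_pos ha hP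
  have step1 : ∀ t : ℕ, ∃ g0 : ℕ, ∀ ι, g0 ≤ ι →
      (L (2 ^ (a * ι - 1) - cseq (t * (a * P))) : ℤ)
        = 1 + t * (L (2 ^ (a * ι - 1) - cseq (a * P)) - 1) := by
    intro t
    refine ⟨m + 2 + (2 ^ tri (t * (a * P)) + cseq (t * (a * P)))
      + (2 ^ tri (a * P) + cseq (a * P)), fun ι hι => ?_⟩
    have haι : ι ≤ a * ι := Nat.le_mul_of_pos_left _ ha
    have hp1 : 0 < 2 ^ tri (t * (a * P)) := by positivity
    have hp2 : 0 < 2 ^ tri (a * P) := by positivity
    obtain ⟨g, hg⟩ : ∃ g, a * ι = g + 2 := ⟨a * ι - 2, by omega⟩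
    have hglt : g + 1 < 2 ^ (g + 1) := Nat.lt_two_pow_self
    have c0 : 2 ^ tri 0 + cseq 0 < 2 ^ (g + 1) := by simp only [tri, cseq]; omega
    have ct : 2 ^ tri (t * (a * P)) + cseq (t * (a * P)) < 2 ^ (g + 1) := by omega
    have c1 : 2 ^ tri (a * P) + cseq (a * P) < 2 ^ (g + 1) := by omega
    have hA := aseq_ge g
    have hQ' := hQ Lseq hself (aseq g - 1) ι (by omega) t
    rw [show aseq g - 1 + 1 = aseq g by omega] at hQ'
    have harg : ∀ u : ℕ, (2 ^ a) ^ (ι + u * P) * aseq g = aseq g * 2 ^ (g + 1 + (u * (a * P) + 1)) := by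
      intro u
      rw [← pow_mul, mul_comm]
      congr 2
      rw [mul_add, hg]
      ring
    have hval : ∀ u : ℕ, 2 ^ tri (u * (a * P)) + cseq (u * (a * P)) < 2 ^ (g + 1) →
        Lseq ((2 ^ a) ^ (ι + u * P) * aseq g - 1)
          = 2 * (g + 1) + (2 * (u * (a * P)) + 1) + L (2 ^ (g + 1) - cseq (u * (a * P))) := by
      intro u hu
      rw [harg]
      have hpw : 2 ≤ 2 ^ (g + 1 + (u * (a * P) + 1)) := by
        calc 2 = 2 ^ 1 := by norm_num
          _ ≤ _ := Nat.pow_le_pow_right (by norm_num) (by omega)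
      have hge : 2 * 2 ≤ aseq g * 2 ^ (g + 1 + (u * (a * P) + 1)) := Nat.mul_le_mul hA hpw
      rw [Lseq_eq (by omega), identity_three hu]
      push_cast
      ring
    have v0 := hval 0 (by simpa using c0)
    have v1 := hval 1 (by simpa using c1)
    have vt := hval t ct
    simp only [zero_mul, add_zero, one_mul] at v0 v1
    rw [v0, v1, vt] at hQ'
    have hc0 : L (2 ^ (g + 1) - cseq 0) = 1 := by
      simp only [cseq, Nat.sub_zero]
      exact L_pow _
    rw [hc0] at hQ'
    rw [hg, show g + 2 - 1 = g + 1 by omega]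
    push_cast at hQ' ⊢
    linarith
  -- Step 2: linearity of `L(2^{aι-1} - c)` in `ι`
  set c := cseq (a * P) with hc
  have hc1 : 1 ≤ c := by
    obtain ⟨z, hz⟩ : ∃ z, a * P = z + 1 := ⟨a * P - 1, by omega⟩
    rw [hc, hz]
    simp only [cseq]
    omega
  -- choose h with c < 2^{a h}
  have hch : c < (2 ^ a) ^ c := by
    rw [← pow_mul]
    have h1 : c < 2 ^ c := Nat.lt_two_pow_self
    have h2 : 2 ^ c ≤ 2 ^ (a * c) :=
      Nat.pow_le_pow_right (by norm_num) (Nat.le_mul_of_pos_left _ ha)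
    omega
  set b : ℕ → ℤ := fun n => Lseq ((2 ^ a) ^ c * n + ((2 ^ a) ^ c - c)) with hb
  have hbK : b ∈ K := Submodule.subset_span ⟨c, (2 ^ a) ^ c - c, by omega, rfl⟩
  have hbval : ∀ ι : ℕ, b ((2 ^ a) ^ ι * (2 ^ (a - 1) - 1 + 1) - 1)
      = L (2 ^ (a * (ι + c + 1) - 1) - c) := by
    intro ι
    have h1 : 1 ≤ 2 ^ (a - 1) := Nat.one_le_two_pow
    rw [Nat.sub_add_cancel h1, hb]
    simp only
    have h2 : 1 ≤ (2 ^ a) ^ ι * 2 ^ (a - 1) := Nat.mul_pos (by positivity) (by positivity)
    obtain ⟨Y, hY⟩ : ∃ Y, (2 ^ a) ^ ι * 2 ^ (a - 1) = Y + 1 :=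
      ⟨(2 ^ a) ^ ι * 2 ^ (a - 1) - 1, by omega⟩
    have h3 : (2 ^ a) ^ c * ((2 ^ a) ^ ι * 2 ^ (a - 1)) = 2 ^ (a * (ι + c + 1) - 1) := by
      rw [← mul_assoc, ← pow_add, ← pow_mul, ← pow_add]
      congr 1
      have : a * (ι + c + 1) = a * (c + ι) + a := by ring
      omega
    rw [hY] at h3 ⊢
    rw [show Y + 1 - 1 = Y by omega]
    have h4 : (2 ^ a) ^ c * Y + ((2 ^ a) ^ c - c) = 2 ^ (a * (ι + c + 1) - 1) - c := by
      rw [← h3, mul_add, mul_one]; omega
    rw [h4, Lseq_eq]
    rw [← h4]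
    omega
  set H : ℕ → ℤ := fun ι => (L (2 ^ (a * (ι + c + 1) - 1) - c) : ℤ) with hH
  have hlin : ∀ s : ℕ, H (m + s * P) = H m + s * (H (m + P) - H m) := by
    intro s
    have := hQ b hbK (2 ^ (a - 1) - 1) m le_rfl s
    rw [hbval, hbval, hbval] at this
    exact this
  set σ := H (m + P) - H m with hσ
  -- Step 3: `σ ≤ 0`
  have hσ0 : σ ≤ 0 := by
    by_contra hpos
    push Not at hpos
    set t : ℕ := 4 * (a * P) + 1 with ht
    obtain ⟨g0, hg0⟩ := step1 t
    -- choose s large
    set s : ℕ := g0 + (4 * (a * (m + c + 1)) + 10) + t * 2 with hs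
    have hsP : s ≤ s * P := Nat.le_mul_of_pos_right _ hP
    have h1 := hg0 (m + s * P + c + 1) (by omega)
    have h2 := hlin s
    have h3 : (L (2 ^ (a * (m + s * P + c + 1) - 1) - c) : ℤ) = H (m + s * P) := rfl
    rw [h3, h2] at h1
    have h4 : L (2 ^ (a * (m + s * P + c + 1) - 1) - cseq (t * (a * P)))
        ≤ 4 * (a * (m + s * P + c + 1) - 1) + 9 ∨
        2 ^ (a * (m + s * P + c + 1) - 1) ≤ cseq (t * (a * P)) := by
      rcases lt_or_ge (cseq (t * (a * P))) (2 ^ (a * (m + s * P + c + 1) - 1)) with h | h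
      · left
        by_cases h0 : cseq (t * (a * P)) = 0
        · rw [h0, Nat.sub_zero, L_pow]; omega
        · exact L_upper (by omega) (by omega)
      · exact Or.inr h
    have h5 : (L (2 ^ (a * (m + s * P + c + 1) - 1) - cseq (t * (a * P))) : ℤ)
        ≤ 4 * (a * (m + s * P + c + 1)) + 9 := by
      rcases h4 with h4 | h4
      · have : L (2 ^ (a * (m + s * P + c + 1) - 1) - cseq (t * (a * P)))
            ≤ 4 * (a * (m + s * P + c + 1)) + 9 := by omega
        exact_mod_cast this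
      · have h6 : 2 ^ (a * (m + s * P + c + 1) - 1) - cseq (t * (a * P)) = 0 := by omega
        rw [h6]
        have h7 : L 0 = 1 := by
          unfold L
          rw [clist]
          simp
        rw [h7]
        have : (1 : ℕ) ≤ 4 * (a * (m + s * P + c + 1)) + 9 := by omega
        exact_mod_cast this
    rw [h1] at h5
    have hHm : 1 ≤ H m := by
      simp only [hH]
      exact_mod_cast L_pos _
    have hsσ : (s : ℤ) ≤ s * σ := by
      have : (0 : ℤ) ≤ s := by positivity
      nlinarith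
    have ht0 : (0 : ℤ) ≤ t := by positivity
    have h8 : (t : ℤ) * s ≤ t * (H m + s * σ - 1) := by
      apply mul_le_mul_of_nonneg_left _ ht0
      linarith
    have h9 : (t : ℤ) * s = 4 * (a * P) * s + s := by
      rw [ht]; push_cast; ring
    have h10 : (4 * (a * (m + s * P + c + 1)) + 9 : ℤ)
        = 4 * (a * P) * s + (4 * (a * (m + c + 1)) + 9) := by ring
    have h11 : (s : ℤ) ≥ 4 * (a * (m + c + 1)) + 10 := by
      rw [hs]; push_cast
      have : (0 : ℤ) ≤ g0 := by positivity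
      linarith
    linarith
  -- Step 4: contradiction with the lower bound
  have hbound : ∀ s : ℕ, H (m + s * P) ≤ H m := by
    intro s
    rw [hlin s]
    have : (0 : ℤ) ≤ s := by positivity
    nlinarith
  set s : ℕ := 2 ^ (H m).toNat + pc (c - 1) + c + 2 with hs
  have h1 := hbound s
  have hsP : s ≤ s * P := Nat.le_mul_of_pos_right _ hP
  have hHpos : 0 < 2 ^ (H m).toNat := by positivity
  set g := a * (m + s * P + c + 1) - 1 with hg
  have hgs : s ≤ g := by
    have h2 : m + s * P + c + 1 ≤ a * (m + s * P + c + 1) := Nat.le_mul_of_pos_left _ ha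
    omega
  have hcg : c < 2 ^ g := by
    have : g < 2 ^ g := Nat.lt_two_pow_self
    omega
  have h2 := L_lower hc1 hcg
  have h3 : (L (2 ^ g - c) : ℤ) ≤ H m := h1
  have h4 : L (2 ^ g - c) ≤ (H m).toNat := by omega
  have h5 : 2 ^ L (2 ^ g - c) ≤ 2 ^ (H m).toNat := Nat.pow_le_pow_right (by norm_num) h4
  omega

/-- **The continued logarithm length sequence is never regular.** There is no integer `k ≥ 2` for
which the sequence `(L(n))` is `k`-regular. -/
theorem result : ¬ ∃ k : ℕ, 2 ≤ k ∧ IsRegular k Lseq := by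
  rintro ⟨k, hk, hreg⟩
  by_cases h : ∃ p, p.Prime ∧ p ≠ 2 ∧ p ∣ k
  · obtain ⟨p, hp, hp2, hpk⟩ := h
    exact not_regular_odd hk hp hp2 hpk hreg
  · push Not at h
    have hpow : k = 2 ^ k.primeFactorsList.length := by
      apply Nat.eq_prime_pow_of_unique_prime_dvd (by omega)
      intro p hp hpk
      by_contra hne
      exact h p hp hne hpk
    have hlen : 1 ≤ k.primeFactorsList.length := by
      by_contra h0
      have : k.primeFactorsList.length = 0 := by omega
      rw [this] at hpow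
      omega
    rw [hpow] at hreg
    exact not_regular_pow hlen hreg

end Pool.Agent.Results.MP_32f763_nt.NeverRegular
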